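import Mathlib

set_option autoImplicit false

/-!
Sequences of truth-table functionals, primitive recursive reducibility, and lists of oracles which are
given by such sequences.
-/

namespace Pool.Agent.V7H67.IB

/-- `S 0, S 1, ...` is a uniformly computable sequence of truth-table functionals: for one
computable `δ` and one computable `u`, the value of `S l X` at `n` is `δ` of `(l, n)` and the initial
segment of `X` of length `u (l, n)`. -/
def TTs (S : ℕ → (ℕ → Bool) → ℕ → Bool) : Prop :=
  ∃ (δ : (ℕ × ℕ) × List Bool → Bool) (u : ℕ × ℕ → ℕ), Computable δ ∧ Computable u ∧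
    ∀ l X n, S l X n = δ ((l, n), (List.range (u (l, n))).map X)

/-- `X` is primitive recursive in `Y`: for primitive recursive `f` and `v`, the value of `X` at `n`
is `f` of `n` and the initial segment of `Y` of length `v n`. -/
def PRed (X Y : ℕ → Bool) : Prop :=
  ∃ (f : ℕ × List Bool → Bool) (v : ℕ → ℕ), Primrec f ∧ Primrec v ∧
    ∀ n, X n = f (n, (List.range (v n)).map Y)

/-- The list of level `n` of the oracle `X`, as a set of oracles: its members are the `T k X` for the
`k < c n` with `R n X k = true`. -/
def Lst (T R : ℕ → (ℕ → Bool) → ℕ → Bool) (c : ℕ → ℕ) (n : ℕ) (X : ℕ → Bool) : Set (ℕ → Bool) :=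
  {Y | ∃ k < c n, R n X k = true ∧ Y = T k X}

end Pool.Agent.V7H67.IB
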