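import Pool.Agent.V7H75.TE.Eff
import Pool.Agent.V7H67.IB.Link
import Pool.Agent.V7H67.IB.Cons

set_option autoImplicit false

/-!
The markers and the cuts of a sequence of oracles are computable, uniformly in the sequence.
Adapted from `Pool.Agent.V7H75.TE.Eff`.
-/

namespace Pool.Agent.V7H67.IB

open Encodable Pool.Agent.Helper227
open Pool.Agent.V7H75.HF (U1 UD UF evn odd rd cd evn_join odd_join rd_join)
open Pool.Agent.V7H75.TE (Nx bd bd_prim comp_add comp_sub UD_lt UD_Nx bits_UD)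

theorem lb_prim : Primrec₂ lb := by
  have h1 : Primrec fun x : ℕ × ℕ => (x.1 + x.2 + 2) * (x.2 + 2) :=
    Primrec.nat_mul.comp (Primrec.nat_add.comp (Primrec.nat_add.comp Primrec.fst Primrec.snd)
      (Primrec.const 2)) (Primrec.nat_add.comp Primrec.snd (Primrec.const 2))
  exact bd_prim.comp h1

theorem gM_prim : Primrec gM := by
  have h1 : Primrec fun y : ℕ × ℕ => y.2 + 2 * lb y.2 y.1 * y.2 := by
    exact Primrec.nat_add.comp Primrec.snd (Primrec.nat_mul.comp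
      (Primrec.nat_mul.comp (Primrec.const 2) (lb_prim.comp Primrec.snd Primrec.fst)) Primrec.snd)
  have h2 : Primrec fun n : ℕ => (Nat.rec 1 (fun n r => r + 2 * lb r n * r) n : ℕ) :=
    Primrec.nat_rec' (f := fun n : ℕ => n) (g := fun _ : ℕ => 1)
      (h := fun (_ : ℕ) (y : ℕ × ℕ) => y.2 + 2 * lb y.2 y.1 * y.2) Primrec.id
      (Primrec.const 1) (h1.comp Primrec.snd)
  refine h2.of_eq fun n => ?_
  induction n with
  | zero => rfl
  | succ n ih => simp only [gM, ← ih]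

theorem gK_prim : Primrec gK := by
  have h1 : Primrec fun y : ℕ × ℕ => 3 * gM y.1 + y.2 + gM (y.1 + 1) :=
    Primrec.nat_add.comp (Primrec.nat_add.comp (Primrec.nat_mul.comp (Primrec.const 3)
      (gM_prim.comp Primrec.fst)) Primrec.snd) (gM_prim.comp (Primrec.succ.comp Primrec.fst))
  have h2 : Primrec fun n : ℕ => (Nat.rec 0 (fun n r => 3 * gM n + r + gM (n + 1)) n : ℕ) :=
    Primrec.nat_rec' (f := fun n : ℕ => n) (g := fun _ : ℕ => 0)
      (h := fun (_ : ℕ) (y : ℕ × ℕ) => 3 * gM y.1 + y.2 + gM (y.1 + 1)) Primrec.id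
      (Primrec.const 0) (h1.comp Primrec.snd)
  refine h2.of_eq fun n => ?_
  induction n with
  | zero => rfl
  | succ n ih => simp only [gK, ← ih]

/-- the sequence of oracles coded by an oracle -/
def uc (B : ℕ → Bool) : ℕ → ℕ → Bool := fun i q => B (Nat.pair i q)

/-- a bound for the codes -/
def ub (i m r : ℕ) : ℕ := (i + m + r + 1) * (i + m + r + 1)

theorem seg_eq (B : ℕ → Bool) (r i m : ℕ) (hr : 0 < r) : seg (uc B) r i m =
    (List.range (m * r)).map fun t => (pre B (ub i m r)).getD (Nat.pair (i + t / r) (t % r)) false := by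
  unfold seg uc
  refine List.map_congr_left fun t ht => ?_
  rw [List.mem_range] at ht
  have h1 : t / r < m := (Nat.div_lt_iff_lt_mul hr).2 ht
  have h2 : t % r < r := Nat.mod_lt _ hr
  have h3 := Nat.pair_lt_max_add_one_sq (i + t / r) (t % r)
  have h4 : (max (i + t / r) (t % r) + 1) ^ 2 ≤ ub i m r := by
    rw [ub, sq]
    exact Nat.mul_le_mul (by omega) (by omega)
  rw [pre_getD _ _ _ _ (h3.trans_le h4)]

theorem lab_UF : UF fun B (y : ℕ × ℕ × ℕ) => lab (uc B) y.1 y.2.1 y.2.2 := by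
  have hm : Primrec fun y : ℕ × ℕ × ℕ => y.2.2 - y.2.1 + y.1 + 1 := by
    have h2 : Primrec fun y : ℕ × ℕ × ℕ => y.2 := Primrec.snd
    exact Primrec.succ.comp (Primrec.nat_add.comp (Primrec.nat_sub.comp (Primrec.snd.comp h2)
      (Primrec.fst.comp h2)) Primrec.fst)
  have hr : Primrec fun y : ℕ × ℕ × ℕ => y.1 + 1 := Primrec.succ.comp Primrec.fst
  have hi : Primrec fun y : ℕ × ℕ × ℕ => y.2.1 := Primrec.fst.comp Primrec.snd
  have hf : Primrec fun y : List Bool × (ℕ × ℕ × ℕ) =>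
      encode ((List.range ((y.2.2.2 - y.2.2.1 + y.2.1 + 1) * (y.2.1 + 1))).map
        fun t => y.1.getD (Nat.pair (y.2.2.1 + t / (y.2.1 + 1)) (t % (y.2.1 + 1))) false) := by
    refine Primrec.encode.comp (Primrec.list_map (Primrec.list_range.comp (Primrec.nat_mul.comp
      (hm.comp Primrec.snd) (hr.comp Primrec.snd))) ?_)
    have hr' : Primrec fun z : (List Bool × (ℕ × ℕ × ℕ)) × ℕ => z.1.2.1 + 1 :=
      hr.comp (Primrec.snd.comp Primrec.fst)
    exact (Primrec.list_getD false).comp (Primrec.fst.comp Primrec.fst)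
      (Primrec₂.natPair.comp (Primrec.nat_add.comp (hi.comp (Primrec.snd.comp Primrec.fst))
        (Primrec.nat_div.comp Primrec.snd hr')) (Primrec.nat_mod.comp Primrec.snd hr'))
  have hu : Computable fun y : ℕ × ℕ × ℕ => ub y.2.1 (y.2.2 - y.2.1 + y.1 + 1) (y.1 + 1) := by
    have h1 : Primrec fun y : ℕ × ℕ × ℕ => y.2.1 + (y.2.2 - y.2.1 + y.1 + 1) + (y.1 + 1) + 1 :=
      Primrec.succ.comp (Primrec.nat_add.comp (Primrec.nat_add.comp hi hm) hr)
    exact (Primrec.nat_mul.comp h1 h1).to_comp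
  have h1 := UF.of_pre hf hu
  refine U1.of_eq h1 fun B y => ?_
  simp only [lab, seg_eq _ _ _ _ (Nat.succ_pos _)]

theorem labRel_UD {r : ℕ → ℕ → Prop} (hr : PrimrecPred fun x : ℕ × ℕ => r x.1 x.2) :
    UD fun B (y : (ℕ × ℕ × ℕ) × (ℕ × ℕ × ℕ)) =>
      r (lab (uc B) y.1.1 y.1.2.1 y.1.2.2) (lab (uc B) y.2.1 y.2.2.1 y.2.2.2) := by
  have h1 : UF fun B (y : (ℕ × ℕ × ℕ) × (ℕ × ℕ × ℕ)) => lab (uc B) y.1.1 y.1.2.1 y.1.2.2 :=
    lab_UF.comp Computable.fst
  have h2 : UF fun B (y : ((ℕ × ℕ × ℕ) × (ℕ × ℕ × ℕ)) × ℕ) =>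
      lab (uc B) y.1.2.1 y.1.2.2.1 y.1.2.2.2 :=
    lab_UF.comp (Computable.snd.comp Computable.fst)
  refine UF.pred (p := fun B (y : (ℕ × ℕ × ℕ) × (ℕ × ℕ × ℕ)) (v : ℕ) =>
    r v (lab (uc B) y.2.1 y.2.2.1 y.2.2.2)) h1 ?_
  refine UF.pred (α := ((ℕ × ℕ × ℕ) × (ℕ × ℕ × ℕ)) × ℕ) (p := fun _ x w => r x.2 w) h2 ?_
  exact (UD.of_prim hr).comp (f := fun x : (((ℕ × ℕ × ℕ) × (ℕ × ℕ × ℕ)) × ℕ) × ℕ => (x.1.2, x.2))
    ((Computable.snd.comp Computable.fst).pair Computable.snd)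

theorem nM_UD : UD fun W (x : ℕ × ℕ) => nM (uc (evn W)) (x.1 + 1) (gM x.1) (rd W) x.2 := by
  refine UD.and (UD.rd.comp Computable.snd) ?_
  have hg : Computable fun x : ℕ × ℕ => gM x.1 := gM_prim.to_comp.comp Computable.fst
  have hb : ∀ {α : Type} [Primcodable α] {f g : α → ℕ}, Computable f → Computable g →
      Computable fun a => f a + g a + 1 := fun hf hg => Computable.succ.comp (comp_add hf hg)
  -- the variables of the innermost predicate
  have hx : Computable fun y : (((ℕ × ℕ) × ℕ) × ℕ) × ℕ => y.1.1.1 :=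
    Computable.fst.comp (Computable.fst.comp Computable.fst)
  have hj : Computable fun y : (((ℕ × ℕ) × ℕ) × ℕ) × ℕ => y.1.1.2 :=
    Computable.snd.comp (Computable.fst.comp Computable.fst)
  have hk : Computable fun y : (((ℕ × ℕ) × ℕ) × ℕ) × ℕ => y.1.2 :=
    Computable.snd.comp Computable.fst
  have hl : Computable fun y : (((ℕ × ℕ) × ℕ) × ℕ) × ℕ => y.2 := Computable.snd
  have hn : Computable fun y : (((ℕ × ℕ) × ℕ) × ℕ) × ℕ => y.1.1.1.1 + 1 :=
    Computable.succ.comp (Computable.fst.comp hx)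
  have hi : Computable fun y : (((ℕ × ℕ) × ℕ) × ℕ) × ℕ => y.1.1.1.2 := Computable.snd.comp hx
  have hrd : UD fun W (z : ((((ℕ × ℕ) × ℕ) × ℕ) × ℕ) × ℕ) => rd W z.2 :=
    UD.rd.comp Computable.snd
  have hlab : ∀ {r : ℕ → ℕ → Prop}, (PrimrecPred fun x : ℕ × ℕ => r x.1 x.2) →
      ∀ {a b a' b' : (((ℕ × ℕ) × ℕ) × ℕ) × ℕ → ℕ}, Computable a → Computable b →
      Computable a' → Computable b' →
      UD fun W (y : (((ℕ × ℕ) × ℕ) × ℕ) × ℕ) =>
        r (lab (uc (evn W)) (y.1.1.1.1 + 1) (a y) (b y)) (lab (uc (evn W)) (y.1.1.1.1 + 1) (a' y) (b' y)) := by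
    intro r hr a b a' b' ha hb ha' hb'
    exact (UD.evn (labRel_UD hr)).comp (f := fun y : (((ℕ × ℕ) × ℕ) × ℕ) × ℕ =>
      ((y.1.1.1.1 + 1, (a y, b y)), (y.1.1.1.1 + 1, (a' y, b' y))))
      ((hn.pair (ha.pair hb)).pair (hn.pair (ha'.pair hb')))
  refine UD.all_lt (α := ℕ × ℕ) (p := fun W x j => ∀ k < j + gM x.1 + 1, ∀ l < k + gM x.1 + 1,
    Nx (rd W) x.2 j → Nx (rd W) j k → Nx (rd W) k l →
    lab (uc (evn W)) (x.1 + 1) x.2 j = lab (uc (evn W)) (x.1 + 1) j k ∨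
      (lab (uc (evn W)) (x.1 + 1) x.2 j < lab (uc (evn W)) (x.1 + 1) j k ∧
        lab (uc (evn W)) (x.1 + 1) k l < lab (uc (evn W)) (x.1 + 1) j k))
    (f := fun x => x.2 + gM x.1 + 1) ?_ (hb Computable.snd hg)
  refine UD.all_lt (α := (ℕ × ℕ) × ℕ) (p := fun W y k => ∀ l < k + gM y.1.1 + 1,
    Nx (rd W) y.1.2 y.2 → Nx (rd W) y.2 k → Nx (rd W) k l →
    lab (uc (evn W)) (y.1.1 + 1) y.1.2 y.2 = lab (uc (evn W)) (y.1.1 + 1) y.2 k ∨
      (lab (uc (evn W)) (y.1.1 + 1) y.1.2 y.2 < lab (uc (evn W)) (y.1.1 + 1) y.2 k ∧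
        lab (uc (evn W)) (y.1.1 + 1) k l < lab (uc (evn W)) (y.1.1 + 1) y.2 k))
    (f := fun y => y.2 + gM y.1.1 + 1) ?_ (hb Computable.snd (hg.comp Computable.fst))
  refine UD.all_lt (α := ((ℕ × ℕ) × ℕ) × ℕ) (p := fun W z l =>
    Nx (rd W) z.1.1.2 z.1.2 → Nx (rd W) z.1.2 z.2 → Nx (rd W) z.2 l →
    lab (uc (evn W)) (z.1.1.1 + 1) z.1.1.2 z.1.2 = lab (uc (evn W)) (z.1.1.1 + 1) z.1.2 z.2 ∨
      (lab (uc (evn W)) (z.1.1.1 + 1) z.1.1.2 z.1.2 < lab (uc (evn W)) (z.1.1.1 + 1) z.1.2 z.2 ∧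
        lab (uc (evn W)) (z.1.1.1 + 1) z.2 l < lab (uc (evn W)) (z.1.1.1 + 1) z.1.2 z.2))
    (f := fun z => z.2 + gM z.1.1.1 + 1) ?_
    (hb Computable.snd (hg.comp (Computable.fst.comp Computable.fst)))
  refine UD.imp ?_ (UD.imp ?_ (UD.imp ?_ (UD.or ?_ (UD.and ?_ ?_))))
  · exact UD_Nx (p := fun W (_ : (((ℕ × ℕ) × ℕ) × ℕ) × ℕ) => rd W) hrd hi hj
  · exact UD_Nx (p := fun W (_ : (((ℕ × ℕ) × ℕ) × ℕ) × ℕ) => rd W) hrd hj hk
  · exact UD_Nx (p := fun W (_ : (((ℕ × ℕ) × ℕ) × ℕ) × ℕ) => rd W) hrd hk hl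
  · exact hlab (r := fun a b => a = b) (Primrec.eq.comp Primrec.fst Primrec.snd) hi hj hj hk
  · exact hlab (r := fun a b => a < b) (Primrec.nat_lt.comp Primrec.fst Primrec.snd) hi hj hj hk
  · exact hlab (r := fun a b => a < b) (Primrec.nat_lt.comp Primrec.fst Primrec.snd) hk hl hj hk

theorem M_UD : UD fun B (x : ℕ × ℕ) => M (uc B) x.1 x.2 := by
  refine UD.iter' (Y := fun B n j => M (uc B) n j) (S := fun W (x : ℕ × ℕ) =>
    nM (uc (evn W)) (x.1 + 1) (gM x.1) (rd W) x.2) ?_ nM_UD ?_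
  · exact UD.of_prim (PP.const True)
  · intro B n j
    simp only [evn_join, rd_join]
    exact Iff.rfl

theorem nK_UD : UD fun W (x : ℕ × ℕ) => nK (uc (evn W)) (x.1 + 1) (gM x.1) (M (uc (evn W)) x.1)
    (M (uc (evn W)) (x.1 + 1)) (rd W) x.2 := by
  have hg : Computable fun x : ℕ × ℕ => gM x.1 := gM_prim.to_comp.comp Computable.fst
  have hb : ∀ {α : Type} [Primcodable α] {f g : α → ℕ}, Computable f → Computable g →
      Computable fun a => f a + g a + 1 := fun hf hg => Computable.succ.comp (comp_add hf hg)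
  have hM : ∀ {α : Type} [Primcodable α] {f g : α → ℕ}, Computable f → Computable g →
      UD fun W a => M (uc (evn W)) (f a) (g a) := fun {α} _ {f g} hf hg =>
    (UD.evn M_UD).comp (f := fun a => (f a, g a)) (hf.pair hg)
  refine UD.or (UD.and (hM Computable.fst Computable.snd) (UD.and
    (hM (Computable.succ.comp Computable.fst) Computable.snd).not ?_)) (UD.and
      (UD.rd.comp Computable.snd) ?_)
  · refine UD.all_lt (α := ℕ × ℕ) (p := fun W x j => Nx (M (uc (evn W)) x.1) x.2 j →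
      M (uc (evn W)) (x.1 + 1) j) (f := fun x => x.2 + gM x.1 + 1) (UD.imp ?_ ?_) (hb Computable.snd hg)
    · exact UD_Nx (p := fun W (x : (ℕ × ℕ) × ℕ) => M (uc (evn W)) x.1.1)
        (hM (Computable.fst.comp (Computable.fst.comp Computable.fst)) Computable.snd)
        (Computable.snd.comp Computable.fst) Computable.snd
    · exact hM (Computable.succ.comp (Computable.fst.comp Computable.fst)) Computable.snd
  · refine UD.all_lt (α := ℕ × ℕ) (p := fun W x j => ∀ k < j + gM x.1 + 1,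
      Nx (M (uc (evn W)) x.1) x.2 j → Nx (M (uc (evn W)) x.1) j k →
        M (uc (evn W)) (x.1 + 1) j ∧ M (uc (evn W)) (x.1 + 1) k ∧
          ∀ t < x.1 + 1, ∀ q < x.1 + 1,
            uc (evn W) (x.2 + t) q = uc (evn W) (x.2 + (k - j) + t) q)
      (f := fun x => x.2 + gM x.1 + 1) ?_ (hb Computable.snd hg)
    refine UD.all_lt (α := (ℕ × ℕ) × ℕ) (p := fun W y k =>
      Nx (M (uc (evn W)) y.1.1) y.1.2 y.2 → Nx (M (uc (evn W)) y.1.1) y.2 k →
        M (uc (evn W)) (y.1.1 + 1) y.2 ∧ M (uc (evn W)) (y.1.1 + 1) k ∧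
          ∀ t < y.1.1 + 1, ∀ q < y.1.1 + 1,
            uc (evn W) (y.1.2 + t) q = uc (evn W) (y.1.2 + (k - y.2) + t) q)
      (f := fun y => y.2 + gM y.1.1 + 1) ?_ (hb Computable.snd (hg.comp Computable.fst))
    have hn : Computable fun z : ((ℕ × ℕ) × ℕ) × ℕ => z.1.1.1 :=
      Computable.fst.comp (Computable.fst.comp Computable.fst)
    have hi : Computable fun z : ((ℕ × ℕ) × ℕ) × ℕ => z.1.1.2 :=
      Computable.snd.comp (Computable.fst.comp Computable.fst)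
    have hj : Computable fun z : ((ℕ × ℕ) × ℕ) × ℕ => z.1.2 := Computable.snd.comp Computable.fst
    have hk : Computable fun z : ((ℕ × ℕ) × ℕ) × ℕ => z.2 := Computable.snd
    refine UD.imp ?_ (UD.imp ?_ (UD.and ?_ (UD.and ?_ ?_)))
    · exact UD_Nx (p := fun W (z : ((ℕ × ℕ) × ℕ) × ℕ) => M (uc (evn W)) z.1.1.1)
        (hM (hn.comp Computable.fst) Computable.snd) hi hj
    · exact UD_Nx (p := fun W (z : ((ℕ × ℕ) × ℕ) × ℕ) => M (uc (evn W)) z.1.1.1)
        (hM (hn.comp Computable.fst) Computable.snd) hj hk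
    · exact hM (Computable.succ.comp hn) hj
    · exact hM (Computable.succ.comp hn) hk
    · refine UD.all_lt (α := ((ℕ × ℕ) × ℕ) × ℕ) (p := fun W z t => ∀ q < z.1.1.1 + 1,
        uc (evn W) (z.1.1.2 + t) q = uc (evn W) (z.1.1.2 + (z.2 - z.1.2) + t) q)
        (f := fun z => z.1.1.1 + 1) ?_ (Computable.succ.comp hn)
      refine UD.all_lt (α := (((ℕ × ℕ) × ℕ) × ℕ) × ℕ) (p := fun W z q =>
        uc (evn W) (z.1.1.1.2 + z.2) q = uc (evn W) (z.1.1.1.2 + (z.1.2 - z.1.1.2) + z.2) q)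
        (f := fun z => z.1.1.1.1 + 1) ?_ (Computable.succ.comp (hn.comp Computable.fst))
      have hi' : Computable fun z : ((((ℕ × ℕ) × ℕ) × ℕ) × ℕ) × ℕ => z.1.1.1.1.2 :=
        hi.comp (Computable.fst.comp Computable.fst)
      have hj' : Computable fun z : ((((ℕ × ℕ) × ℕ) × ℕ) × ℕ) × ℕ => z.1.1.1.2 :=
        hj.comp (Computable.fst.comp Computable.fst)
      have hk' : Computable fun z : ((((ℕ × ℕ) × ℕ) × ℕ) × ℕ) × ℕ => z.1.1.2 :=
        hk.comp (Computable.fst.comp Computable.fst)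
      have ht' : Computable fun z : ((((ℕ × ℕ) × ℕ) × ℕ) × ℕ) × ℕ => z.1.2 :=
        Computable.snd.comp Computable.fst
      have hp : Computable fun z : ((((ℕ × ℕ) × ℕ) × ℕ) × ℕ) × ℕ =>
          Nat.pair (z.1.1.1.1.2 + z.1.2) z.2 :=
        Computable₂.comp (f := Nat.pair) Primrec₂.natPair.to_comp (comp_add hi' ht') Computable.snd
      have hp' : Computable fun z : ((((ℕ × ℕ) × ℕ) × ℕ) × ℕ) × ℕ =>
          Nat.pair (z.1.1.1.1.2 + (z.1.1.2 - z.1.1.1.2) + z.1.2) z.2 :=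
        Computable₂.comp (f := Nat.pair) Primrec₂.natPair.to_comp
          (comp_add (comp_add hi' (comp_sub hk' hj')) ht') Computable.snd
      exact (UD.evn bits_UD).comp (f := fun z : ((((ℕ × ℕ) × ℕ) × ℕ) × ℕ) × ℕ =>
        (Nat.pair (z.1.1.1.1.2 + z.1.2) z.2,
          Nat.pair (z.1.1.1.1.2 + (z.1.1.2 - z.1.1.1.2) + z.1.2) z.2)) (hp.pair hp')

theorem K_UD : UD fun B (x : ℕ × ℕ) => K (uc B) x.1 x.2 := by
  refine UD.iter' (Y := fun B n j => K (uc B) n j) (S := fun W (x : ℕ × ℕ) =>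
    nK (uc (evn W)) (x.1 + 1) (gM x.1) (M (uc (evn W)) x.1) (M (uc (evn W)) (x.1 + 1)) (rd W) x.2) ?_ nK_UD ?_
  · exact UD.of_prim (PP.const True)
  · intro B n j
    simp only [evn_join, rd_join]
    exact Iff.rfl

theorem Fst_UD : UD fun B (x : ℕ × ℕ) => Fst (uc B) x.1 x.2 := by
  refine UD.and K_UD ?_
  refine UD.all_lt (α := ℕ × ℕ) (p := fun B x j => ¬ K (uc B) x.1 j) (f := fun x => x.2) (UD.not ?_)
    Computable.snd
  exact K_UD.comp (f := fun y : (ℕ × ℕ) × ℕ => (y.1.1, y.2))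
    ((Computable.fst.comp Computable.fst).pair Computable.snd)

end Pool.Agent.V7H67.IB
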