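import Pool.Agent.V7H67.IB.Eff
import Pool.Agent.V7H75.HF.Main

set_option autoImplicit false

/-!
Words in a map `T` of the Cantor space and its inverse branches `S 0, S 1, ...`, and the lists of
oracles on which the requirements act.
-/

namespace Pool.Agent.V7H67.IB

open Encodable Pool.Agent.Helper227
open Pool.Agent.V7H75.HF (U1 UD UF evn odd rd cd evn_join odd_join rd_join cd_encode iterate_UD Cl)
open Pool.Agent.V7H75.TE (Nx comp_add comp_sub UD_lt)

/-- the map of a letter: `0` stands for `T` and `l + 1` for `S l` -/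
def Lt (T : (ℕ → Bool) → ℕ → Bool) (S : ℕ → (ℕ → Bool) → ℕ → Bool) : ℕ → (ℕ → Bool) → ℕ → Bool
  | 0 => T
  | l + 1 => S l

/-- the map of a word, the last letter is applied first -/
def Ap (L : ℕ → (ℕ → Bool) → ℕ → Bool) (w : List ℕ) (X : ℕ → Bool) : ℕ → Bool := w.foldr L X

theorem Ap_append (L : ℕ → (ℕ → Bool) → ℕ → Bool) (w v : List ℕ) (X : ℕ → Bool) :
    Ap L (w ++ v) X = Ap L w (Ap L v X) := List.foldr_append

theorem Ap_replicate (L : ℕ → (ℕ → Bool) → ℕ → Bool) (i : ℕ) (X : ℕ → Bool) :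
    Ap L (List.replicate i 0) X = (L 0)^[i] X := by
  induction i with
  | zero => rfl
  | succ i ih =>
    rw [List.replicate_succ, Function.iterate_succ_apply', ← ih]
    rfl

section words

variable {L : ℕ → (ℕ → Bool) → ℕ → Bool} (hL : UD fun B (x : ℕ × ℕ) => L x.1 B x.2 = true)

include hL in
theorem Ap_UD : UD fun B (x : List ℕ × ℕ) => Ap L x.1 B x.2 = true := by
  have hF : UD fun W (x : List ℕ × ℕ) => odd W (encode (x.1, x.2)) = true :=
    UD.rd (α := List ℕ × ℕ)
  have hs : Primrec fun x : ℕ × (List ℕ × ℕ) => x.1 := Primrec.fst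
  have hl : Primrec fun x : ℕ × (List ℕ × ℕ) => x.2.1.length :=
    Primrec.list_length.comp (Primrec.fst.comp Primrec.snd)
  have h1 : UD fun B (x : ℕ × (List ℕ × ℕ)) =>
      Ap L (x.2.1.drop (x.2.1.length - x.1)) B x.2.2 = true := by
    refine UD.iter' (Y := fun B s (a : List ℕ × ℕ) =>
        Ap L (a.1.drop (a.1.length - s)) B a.2 = true)
      (S := fun W (x : ℕ × (List ℕ × ℕ)) => (x.1 < x.2.1.length ∧
        L (x.2.1.getD (x.2.1.length - (x.1 + 1)) 0) (fun z => odd W (encode (x.2.1, z))) x.2.2 =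
          true) ∨ (¬ x.1 < x.2.1.length ∧ rd W x.2)) ?_ ?_ ?_
    · refine (UD.query.comp (Computable.snd (α := List ℕ) (β := ℕ))).of_eq fun B a => ?_
      simp [Ap]
    · have h0 : UD fun (_ : ℕ → Bool) (x : ℕ × (List ℕ × ℕ)) => x.1 < x.2.1.length :=
        UD.of_prim (Primrec.nat_lt.comp hs hl)
      refine UD.or (UD.and h0 ?_) (UD.and h0.not (UD.rd.comp Computable.snd))
      have h2 : UD fun W (x : List ℕ × (ℕ × ℕ)) =>
          L x.2.1 (fun z => odd W (encode (x.1, z))) x.2.2 = true :=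
        UD.sub (F := fun W (w : List ℕ) => fun z => odd W (encode (w, z))) hF hL
      exact h2.comp (f := fun x : ℕ × (List ℕ × ℕ) =>
        (x.2.1, (x.2.1.getD (x.2.1.length - (x.1 + 1)) 0, x.2.2)))
        ((Primrec.fst.comp Primrec.snd).pair (((Primrec.list_getD 0).comp
          (Primrec.fst.comp Primrec.snd) (Primrec.nat_sub.comp hl (Primrec.succ.comp hs))).pair
            (Primrec.snd.comp Primrec.snd))).to_comp
    · rintro B s ⟨w, y⟩
      simp only [rd_join, odd_join]
      have h3 : (fun z => cd (fun a : List ℕ × ℕ =>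
          Ap L (a.1.drop (a.1.length - s)) B a.2 = true) (encode (w, z))) =
            Ap L (w.drop (w.length - s)) B := by
        funext z
        rw [Bool.eq_iff_iff, cd_encode]
      rw [h3]
      by_cases h4 : s < w.length
      · simp only [h4, true_and, not_true_eq_false, false_and, or_false]
        have h5 : w.drop (w.length - (s + 1)) =
            w.getD (w.length - (s + 1)) 0 :: w.drop (w.length - s) := by
          rw [List.drop_eq_getElem_cons (by omega), List.getD_eq_getElem _ _ (by omega)]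
          congr 2
          omega
        rw [h5]
        exact Iff.rfl
      · simp only [h4, false_and, not_false_eq_true, true_and, false_or]
        rw [show w.length - (s + 1) = w.length - s by omega]
  refine (h1.comp (f := fun x : List ℕ × ℕ => (x.1.length, x))
    ((Primrec.list_length.comp Primrec.fst).pair Primrec.id).to_comp).of_eq fun B x => ?_
  simp

/-- the word with the code `k` -/
def dk (k : ℕ) : List ℕ := (decode k : Option (List ℕ)).getD []

theorem dk_encode (w : List ℕ) : dk (encode w) = w := by simp [dk]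

theorem dk_zero : dk 0 = [] := by
  have h : encode ([] : List ℕ) = 0 := rfl
  have h1 := dk_encode []
  rwa [h] at h1

theorem dk_prim : Primrec dk := Primrec.option_getD.comp Primrec.decode (Primrec.const [])

/-- multiplication of the indices -/
def mk (j k : ℕ) : ℕ := encode (dk j ++ dk k)

theorem mk_comp : Computable₂ mk :=
  (Primrec.encode.comp (Primrec.list_append.comp (dk_prim.comp Primrec.fst)
    (dk_prim.comp Primrec.snd)) : Primrec fun x : ℕ × ℕ => mk x.1 x.2).to_comp

/-- the map with the number `k` -/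
def Tk (L : ℕ → (ℕ → Bool) → ℕ → Bool) (k : ℕ) (X : ℕ → Bool) : ℕ → Bool := Ap L (dk k) X

theorem Tk_comp (L : ℕ → (ℕ → Bool) → ℕ → Bool) (j k : ℕ) (X : ℕ → Bool) :
    Tk L j (Tk L k X) = Tk L (mk j k) X := by
  unfold Tk mk
  rw [dk_encode, Ap_append]

include hL in
theorem Tk_UD : UD fun B (x : ℕ × ℕ) => Tk L x.1 B x.2 = true :=
  (Ap_UD hL).comp (f := fun x : ℕ × ℕ => (dk x.1, x.2))
    ((dk_prim.comp Primrec.fst).pair Primrec.snd).to_comp

end words

/-! ### codes of words with small letters -/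

/-- a bound for the codes of the words of length `m` with letters at most `n` -/
def bl (n : ℕ) : ℕ → ℕ
  | 0 => 0
  | m + 1 => (max n (bl n m) + 1) ^ 2

theorem encode_le_bl (n : ℕ) (l : List ℕ) (h : ∀ b ∈ l, b ≤ n) : encode l ≤ bl n l.length := by
  induction l with
  | nil => exact Nat.le_refl 0
  | cons b l ih =>
    rw [encode_list_cons, List.length_cons, bl]
    have h1 : encode b ≤ n := h b (by simp)
    have h2 := Nat.pair_lt_max_add_one_sq (encode b) (encode l)
    have h3 : max (encode b) (encode l) ≤ max n (bl n l.length) :=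
      max_le_max h1 (ih fun c hc => h c (by simp [hc]))
    have h4 : (max (encode b) (encode l) + 1) ^ 2 ≤ (max n (bl n l.length) + 1) ^ 2 :=
      Nat.pow_le_pow_left (by omega) 2
    omega

theorem bl_mono (n : ℕ) {m m' : ℕ} (h : m ≤ m') : bl n m ≤ bl n m' := by
  induction h with
  | refl => exact le_rfl
  | @step k _ ih =>
    refine ih.trans ?_
    rw [bl]
    have h1 : bl n k ≤ max n (bl n k) + 1 := (le_max_right _ _).trans (Nat.le_succ _)
    exact h1.trans (Nat.le_self_pow (by omega) _)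

theorem bl_prim : Primrec₂ bl := by
  have h1 : Primrec fun y : ℕ × (ℕ × ℕ) => (max y.1 y.2.2 + 1) ^ 2 := by
    have h2 : Primrec fun y : ℕ × (ℕ × ℕ) => max y.1 y.2.2 + 1 :=
      Primrec.succ.comp (Primrec.nat_max.comp Primrec.fst (Primrec.snd.comp Primrec.snd))
    exact (Primrec.nat_mul.comp h2 h2).of_eq fun m => (sq _).symm
  have h2 : Primrec₂ fun (n m : ℕ) => (Nat.rec 0 (fun _ r => (max n r + 1) ^ 2) m : ℕ) :=
    Primrec.nat_rec (f := fun _ : ℕ => 0) (g := fun (n : ℕ) (y : ℕ × ℕ) => (max n y.2 + 1) ^ 2)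
      (Primrec.const 0) h1
  refine h2.of_eq fun n m => ?_
  induction m with
  | zero => rfl
  | succ m ih => simp only [bl, ← ih]

/-! ### the lists -/

/-- the word `l` consists of `i` letters `0` at the end and of letters from `1` to `n` -/
def Ok (n a : ℕ) (l : List ℕ) : Prop :=
  ∃ i < a + gK n + 2, i ≤ l.length ∧ ((l.length - i) + (a - i) ≤ gK n ∧
    ∀ t < l.length, (t < l.length - i → 1 ≤ l.getD t 0 ∧ l.getD t 0 ≤ n) ∧
      (l.length - i ≤ t → l.getD t 0 = 0))

theorem Ok_iff {n a : ℕ} {l : List ℕ} : Ok n a l ↔ ∃ (w : List ℕ) (i : ℕ),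
    (∀ b ∈ w, 1 ≤ b ∧ b ≤ n) ∧ w.length + (a - i) ≤ gK n ∧ i ≤ a + gK n + 1 ∧
      l = w ++ List.replicate i 0 := by
  constructor
  · rintro ⟨i, h1, h2, h3, h4⟩
    refine ⟨l.take (l.length - i), i, ?_, ?_, by omega, ?_⟩
    · intro b hb
      obtain ⟨t, ht, rfl⟩ := List.getElem_of_mem hb
      rw [List.length_take] at ht
      have h5 := (h4 t (by omega)).1 (by omega)
      rw [List.getD_eq_getElem _ _ (by omega)] at h5
      rwa [List.getElem_take]
    · rw [List.length_take]
      omega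
    · conv_lhs => rw [← List.take_append_drop (l.length - i) l]
      congr 1
      rw [List.eq_replicate_iff]
      refine ⟨by rw [List.length_drop]; omega, fun b hb => ?_⟩
      obtain ⟨t, ht, rfl⟩ := List.getElem_of_mem hb
      rw [List.length_drop] at ht
      have h5 := (h4 (l.length - i + t) (by omega)).2 (by omega)
      rw [List.getD_eq_getElem _ _ (by omega)] at h5
      rwa [List.getElem_drop]
  · rintro ⟨w, i, h1, h2, h3, rfl⟩
    have hlen : (w ++ List.replicate i 0).length = w.length + i := by simp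
    refine ⟨i, by omega, by omega, by omega, fun t ht => ⟨fun h4 => ?_, fun h4 => ?_⟩⟩
    · have h5 : t < w.length := by omega
      rw [List.getD_append _ _ _ _ h5, List.getD_eq_getElem _ _ h5]
      exact h1 _ (List.getElem_mem h5)
    · rw [List.getD_append_right _ _ _ _ (by omega), List.getD_eq_getElem _ _ (by simp; omega),
        List.getElem_replicate]

theorem Ok_UD : UD fun (_ : ℕ → Bool) (x : (ℕ × ℕ) × List ℕ) => Ok x.1.1 x.1.2 x.2 := by
  have hn : Primrec fun x : (ℕ × ℕ) × List ℕ => x.1.1 := Primrec.fst.comp Primrec.fst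
  have ha : Primrec fun x : (ℕ × ℕ) × List ℕ => x.1.2 := Primrec.snd.comp Primrec.fst
  have hl : Primrec fun x : (ℕ × ℕ) × List ℕ => x.2.length := Primrec.list_length.comp Primrec.snd
  have hg : Primrec fun x : (ℕ × ℕ) × List ℕ => gK x.1.1 := gK_prim.comp hn
  refine UD.ex_lt (α := (ℕ × ℕ) × List ℕ) (p := fun _ x i => i ≤ x.2.length ∧
    ((x.2.length - i) + (x.1.2 - i) ≤ gK x.1.1 ∧
      ∀ t < x.2.length, (t < x.2.length - i → 1 ≤ x.2.getD t 0 ∧ x.2.getD t 0 ≤ x.1.1) ∧
        (x.2.length - i ≤ t → x.2.getD t 0 = 0))) (f := fun x => x.1.2 + gK x.1.1 + 2)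
    (UD.and ?_ (UD.and ?_ ?_))
    (Primrec.nat_add.comp (Primrec.nat_add.comp ha hg) (Primrec.const 2)).to_comp
  · exact UD.of_prim (Primrec.nat_le.comp Primrec.snd (hl.comp Primrec.fst))
  · exact UD.of_prim (Primrec.nat_le.comp (Primrec.nat_add.comp
      (Primrec.nat_sub.comp (hl.comp Primrec.fst) Primrec.snd)
      (Primrec.nat_sub.comp (ha.comp Primrec.fst) Primrec.snd)) (hg.comp Primrec.fst))
  · refine UD.all_lt (α := ((ℕ × ℕ) × List ℕ) × ℕ) (p := fun _ y t =>
      (t < y.1.2.length - y.2 → 1 ≤ y.1.2.getD t 0 ∧ y.1.2.getD t 0 ≤ y.1.1.1) ∧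
        (y.1.2.length - y.2 ≤ t → y.1.2.getD t 0 = 0)) (f := fun y => y.1.2.length) ?_
      (hl.comp Primrec.fst).to_comp
    have hd : Primrec fun z : (((ℕ × ℕ) × List ℕ) × ℕ) × ℕ => z.1.1.2.getD z.2 0 :=
      (Primrec.list_getD 0).comp (Primrec.snd.comp (Primrec.fst.comp Primrec.fst)) Primrec.snd
    have hli : Primrec fun z : (((ℕ × ℕ) × List ℕ) × ℕ) × ℕ => z.1.1.2.length - z.1.2 :=
      Primrec.nat_sub.comp (hl.comp (Primrec.fst.comp Primrec.fst))
        (Primrec.snd.comp Primrec.fst)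
    have hn' : Primrec fun z : (((ℕ × ℕ) × List ℕ) × ℕ) × ℕ => z.1.1.1.1 :=
      hn.comp (Primrec.fst.comp Primrec.fst)
    refine UD.and (UD.imp ?_ (UD.and ?_ ?_)) (UD.imp ?_ ?_)
    · exact UD.of_prim (Primrec.nat_lt.comp Primrec.snd hli)
    · exact UD.of_prim (Primrec.nat_le.comp (Primrec.const 1) hd)
    · exact UD.of_prim (Primrec.nat_le.comp hd hn')
    · exact UD.of_prim (Primrec.nat_le.comp hli Primrec.snd)
    · exact UD.of_prim (Primrec.eq.comp hd (Primrec.const 0))

/-- the bounds -/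
def ck (n : ℕ) : ℕ := bl n (3 * gK n + 1) + 1

theorem ck_comp : Computable ck :=
  (Primrec.succ.comp (bl_prim.comp Primrec.id (Primrec.succ.comp (Primrec.nat_mul.comp
    (Primrec.const 3) gK_prim)))).to_comp

/-- the forward orbit -/
def ob (T : (ℕ → Bool) → ℕ → Bool) (X : ℕ → Bool) : ℕ → ℕ → Bool := fun i => T^[i] X

/-- the indices of the members of the list -/
def Rk (T : (ℕ → Bool) → ℕ → Bool) (n : ℕ) (X : ℕ → Bool) (k : ℕ) : Prop :=
  ∃ a < gK n + 1, Fst (ob T X) n a ∧ Ok n a (dk k)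

theorem Rk_UD {T : (ℕ → Bool) → ℕ → Bool} (hT : UD fun B (n : ℕ) => T B n = true) :
    UD fun B (x : ℕ × ℕ) => Rk T x.1 B x.2 := by
  have h1 : UD fun B (x : Unit × ℕ) => T^[x.2.unpair.1] B x.2.unpair.2 = true :=
    (iterate_UD hT).comp (f := fun x : Unit × ℕ => x.2.unpair)
      (Primrec.unpair.comp Primrec.snd).to_comp
  have h2 : UD fun B (x : Unit × (ℕ × ℕ)) =>
      Fst (uc fun k => T^[k.unpair.1] B k.unpair.2) x.2.1 x.2.2 :=
    UD.sub (F := fun B (_ : Unit) => fun k => T^[k.unpair.1] B k.unpair.2) h1 Fst_UD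
  have h3 : UD fun B (x : ℕ × ℕ) => Fst (ob T B) x.1 x.2 := by
    refine (h2.comp (f := fun x : ℕ × ℕ => ((), x))
      ((Computable.const ()).pair Computable.id)).of_eq fun B x => ?_
    have h4 : (uc fun k => T^[k.unpair.1] B k.unpair.2) = ob T B := by
      funext i q
      simp [uc, ob]
    rw [h4]
  refine UD.ex_lt (α := ℕ × ℕ) (p := fun B x a => Fst (ob T B) x.1 a ∧ Ok x.1 a (dk x.2))
    (f := fun x => gK x.1 + 1) (UD.and ?_ ?_)
    (Primrec.succ.comp (gK_prim.comp Primrec.fst)).to_comp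
  · exact h3.comp (f := fun y : (ℕ × ℕ) × ℕ => (y.1.1, y.2))
      ((Primrec.fst.comp Primrec.fst).pair Primrec.snd).to_comp
  · exact Ok_UD.comp (f := fun y : (ℕ × ℕ) × ℕ => ((y.1.1, y.2), dk y.1.2))
      (((Primrec.fst.comp Primrec.fst).pair Primrec.snd).pair
        (dk_prim.comp (Primrec.snd.comp Primrec.fst))).to_comp

section lists

variable {L : ℕ → (ℕ → Bool) → ℕ → Bool}

theorem mem_Cl {n : ℕ} {X Y : ℕ → Bool} {a : ℕ} (ha : Fst (ob (L 0) X) n a) :
    Y ∈ Cl ck (Tk L) (Rk (L 0)) n X ↔ ∃ (w : List ℕ) (i : ℕ), (∀ b ∈ w, 1 ≤ b ∧ b ≤ n) ∧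
      w.length + (a - i) ≤ gK n ∧ i ≤ a + gK n + 1 ∧ Y = Ap L w ((L 0)^[i] X) := by
  have ha' : a ≤ gK n := by
    obtain ⟨b, h1, h2⟩ := exists_Fst (ob (L 0) X) n
    rwa [ha.uniq h1]
  constructor
  · rintro ⟨k, -, ⟨b, -, h1, h2⟩, rfl⟩
    obtain rfl := ha.uniq h1
    obtain ⟨w, i, h3, h4, h5, h6⟩ := Ok_iff.1 h2
    refine ⟨w, i, h3, h4, h5, ?_⟩
    unfold Tk
    rw [h6, Ap_append, Ap_replicate]
  · rintro ⟨w, i, h3, h4, h5, rfl⟩
    have hlen : (w ++ List.replicate i 0).length = w.length + i := by simp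
    refine ⟨encode (w ++ List.replicate i 0), ?_, ⟨a, by omega, ha, ?_⟩, ?_⟩
    · have h6 : encode (w ++ List.replicate i 0) ≤ bl n (w ++ List.replicate i 0).length := by
        refine encode_le_bl n _ fun b hb => ?_
        rcases List.mem_append.1 hb with h | h
        · exact (h3 b h).2
        · rw [List.eq_of_mem_replicate h]
          exact Nat.zero_le n
      have h7 : bl n (w ++ List.replicate i 0).length ≤ bl n (3 * gK n + 1) :=
        bl_mono n (by omega)
      unfold ck
      omega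
    · rw [dk_encode]
      exact Ok_iff.2 ⟨w, i, h3, h4, h5, rfl⟩
    · unfold Tk
      rw [dk_encode, Ap_append, Ap_replicate]

theorem sys (L : ℕ → (ℕ → Bool) → ℕ → Bool) : Sys mk ck (Tk L) (Rk (L 0)) where
  comp j k X := Tk_comp L j k X
  one X := by
    unfold Tk
    rw [dk_zero]
    rfl
  self n X := by
    obtain ⟨a, h1, h2⟩ := exists_Fst (ob (L 0) X) n
    exact (mem_Cl h1).2 ⟨[], 0, by simp, by simpa using h2, by omega, rfl⟩

theorem sh_ob (T : (ℕ → Bool) → ℕ → Bool) (X : ℕ → Bool) (d : ℕ) :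
    sh (ob T X) d = ob T (T^[d] X) := by
  funext t
  unfold sh ob
  rw [Nat.add_comm, Function.iterate_add_apply]

/-- the lists of `X` and of `T X` are finally the same, if `X` is `S l (T X)` -/
theorem lists_eq (X : ℕ → Bool) (l : ℕ) (h : L (l + 1) (L 0 X) = X) :
    ∃ N, ∀ n ≥ N, Cl ck (Tk L) (Rk (L 0)) n X = Cl ck (Tk L) (Rk (L 0)) n (L 0 X) := by
  obtain ⟨N, hN⟩ := link (ob (L 0) X)
  refine ⟨max N (l + 1), fun n hn => ?_⟩
  have hnN : N ≤ n := (le_max_left _ _).trans hn
  have hnl : l + 1 ≤ n := (le_max_right _ _).trans hn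
  have hsh : sh (ob (L 0) X) 1 = ob (L 0) (L 0 X) := sh_ob _ _ _
  obtain ⟨a, ha, ha'⟩ := exists_Fst (ob (L 0) X) n
  obtain ⟨b, hb, hb'⟩ := exists_Fst (ob (L 0) (L 0 X)) n
  have hlink := hN n hnN a b ha (by rwa [hsh])
  ext Y
  rw [mem_Cl ha, mem_Cl hb]
  rcases Nat.eq_zero_or_pos a with h0 | h1
  · subst h0
    have hX : X = (L 0)^[b + 1] X := by
      have h2 := congrFun hlink 0
      rw [sh_sh] at h2
      unfold sh ob at h2
      rw [Nat.add_zero, Function.iterate_zero_apply, Nat.add_zero, Nat.add_comm] at h2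
      exact h2
    constructor
    · rintro ⟨w, i, h3, h4, h5, rfl⟩
      refine ⟨w, i + b, h3, by omega, by omega, ?_⟩
      conv_lhs => rw [hX]
      rw [← Function.iterate_add_apply, ← Function.iterate_succ_apply]
      congr 2
    · rintro ⟨w, i, h3, h4, h5, rfl⟩
      have hper : ∀ q, (L 0)^[(b + 1) * q] X = X := by
        intro q
        induction q with
        | zero => rfl
        | succ q ih => rw [Nat.mul_succ, Function.iterate_add_apply, ← hX, ih]
      have hmod : (i + 1) % (b + 1) < b + 1 := Nat.mod_lt _ (Nat.succ_pos b)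
      refine ⟨w, (i + 1) % (b + 1), h3, by omega, by omega, ?_⟩
      rw [← Function.iterate_succ_apply]
      congr 1
      change (L 0)^[i + 1] X = _
      conv_lhs => rw [← Nat.mod_add_div (i + 1) (b + 1), Function.iterate_add_apply, hper]
  · have hb1 : b = a - 1 := by
      have h2 : Fst (ob (L 0) (L 0 X)) n (a - 1) := by
        rw [← hsh]
        refine ⟨?_, fun j hj => ?_⟩
        · rw [K_sh, show 1 + (a - 1) = a by omega]
          exact ha.1
        · rw [K_sh]
          exact ha.2 (1 + j) (by omega)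
      exact hb.uniq h2
    subst hb1
    constructor
    · rintro ⟨w, i, h3, h4, h5, rfl⟩
      rcases Nat.eq_zero_or_pos i with h0 | h6
      · subst h0
        refine ⟨w ++ [l + 1], 0, ?_, ?_, by omega, ?_⟩
        · intro b hb
          rcases List.mem_append.1 hb with h7 | h7
          · exact h3 b h7
          · rw [List.mem_singleton.1 h7]
            omega
        · rw [List.length_append, List.length_singleton]
          omega
        · rw [Ap_append, Function.iterate_zero_apply, Function.iterate_zero_apply]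
          congr 1
          exact h.symm
      · refine ⟨w, i - 1, h3, by omega, by omega, ?_⟩
        rw [← Function.iterate_succ_apply, show (i - 1).succ = i by omega]
    · rintro ⟨w, i, h3, h4, h5, rfl⟩
      refine ⟨w, i + 1, h3, by omega, by omega, ?_⟩
      rw [Function.iterate_succ_apply]

end lists

/-- one solution to Post's problem for a computable map and all its inverse branches in a uniformly
computable sequence -/
theorem main {T : (ℕ → Bool) → ℕ → Bool} {S : ℕ → (ℕ → Bool) → ℕ → Bool}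
    (hT : UD fun B (n : ℕ) => T B n = true) (hS : UD fun B (x : ℕ × ℕ) => S x.1 B x.2 = true) :
    ∃ e : ℕ, Pool.Agent.H869R3.RT.PostIndex e ∧ ∀ (X : ℕ → Bool) (l : ℕ), S l (T X) = X →
      TLe (Pool.Agent.H548R2.Post.chr (WE X e)) (Pool.Agent.H548R2.Post.chr (WE (T X) e)) ∧
        TLe (Pool.Agent.H548R2.Post.chr (WE (T X) e)) (Pool.Agent.H548R2.Post.chr (WE X e)) := by
  have hL : UD fun B (x : ℕ × ℕ) => Lt T S x.1 B x.2 = true := by
    have h0 : UD fun (_ : ℕ → Bool) (x : ℕ × ℕ) => x.1 = 0 :=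
      UD.of_prim (Primrec.eq.comp Primrec.fst (Primrec.const 0))
    have h1 : UD fun B (x : ℕ × ℕ) => (x.1 = 0 ∧ T B x.2 = true) ∨
        (¬ x.1 = 0 ∧ S (x.1 - 1) B x.2 = true) := by
      refine UD.or (UD.and h0 (hT.comp Computable.snd)) (UD.and h0.not ?_)
      exact hS.comp (f := fun x : ℕ × ℕ => (x.1 - 1, x.2))
        ((Primrec.nat_sub.comp Primrec.fst (Primrec.const 1)).pair Primrec.snd).to_comp
    refine h1.of_eq fun B x => ?_
    rcases x with ⟨_ | l, y⟩ <;> simp [Lt]
  obtain ⟨e, h1, h2⟩ := main_sys (sys (Lt T S)) mk_comp ck_comp (Tk_UD hL)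
    (Rk_UD (T := Lt T S 0) hT)
  exact ⟨e, h1, fun X l h => h2 X (T X) (lists_eq (L := Lt T S) X l h)⟩

end Pool.Agent.V7H67.IB
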