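import Pool.Agent.V7H75.HF.Main
import Pool.Agent.H869R3.RT.Jn
import Pool.Agent.V7H67.IB.Word
import Pool.Agent.V7H67.IB.Defs

set_option autoImplicit false

/-!
Solutions to Post's problem which are invariant under a truth-table functional and all of its
primitive recursive inverse branches.
-/

namespace Pool.Agent.V7H67.IB

open Encodable Pool.Agent.Helper227
open Pool.Agent.H548R2.Post (chr)
open Pool.Agent.H869R3.RT (PostIndex exists_univ_nat)
open Pool.Agent.V7H75.HF (TT UD U1)

theorem ud_pre {α : Type} [Primcodable α] {δ : α × List Bool → Bool} {u : α → ℕ}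
    (hδ : Computable δ) (hu : Computable u) : UD fun B a => δ (a, pre B (u a)) = true := by
  have h1 : ∀ b : Bool, U1 fun B (a : α) => δ (a, pre B (u a)) = b := by
    intro b
    have h2 : S1 fun x : List Bool × α => δ (x.2, x.1) = b := by
      have h3 : S1 fun y : Bool => y = b := S1.of_prim (Primrec.eq.comp Primrec.id (Primrec.const b))
      exact h3.comp_computable (f := fun x : List Bool × α => δ (x.2, x.1))
        (hδ.comp (Computable.snd.pair Computable.fst))
    exact U1.of_pre h2 hu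
  exact ⟨h1 true, (h1 false).of_eq fun B n => by rw [Bool.not_eq_true]⟩

theorem TTs.ud {S : ℕ → (ℕ → Bool) → ℕ → Bool} (h : TTs S) :
    UD fun B (x : ℕ × ℕ) => S x.1 B x.2 = true := by
  obtain ⟨δ, u, hδ, hu, h⟩ := h
  refine (ud_pre hδ hu).of_eq fun B x => ?_
  rw [h]
  rfl

/-- one solution to Post's problem for an effective system of finite lists -/
theorem main_lst {T R : ℕ → (ℕ → Bool) → ℕ → Bool} {m : ℕ → ℕ → ℕ} {c : ℕ → ℕ} (hT : TTs T)
    (hR : TTs R) (hm : Computable₂ m) (hc : Computable c) (hcomp : ∀ j k X, T j (T k X) = T (m j k) X)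
    (hone : ∀ X, T 0 X = X) (hself : ∀ n X, X ∈ Lst T R c n X) :
    ∃ e : ℕ, PostIndex e ∧ ∀ X Y : ℕ → Bool,
      (∃ N, ∀ n ≥ N, Lst T R c n X = Lst T R c n Y) →
      TLe (chr (WE X e)) (chr (WE Y e)) ∧ TLe (chr (WE Y e)) (chr (WE X e)) :=
  main_sys (m := m) (c := c) (T := T) (R := fun n X k => R n X k = true) ⟨hcomp, hone, hself⟩ hm hc
    hT.ud hR.ud

/-- a uniformly computable sequence with all primitive recursive functionals among its members -/
theorem exists_all {S : ℕ → (ℕ → Bool) → ℕ → Bool} (hS : TTs S) :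
    ∃ S' : ℕ → (ℕ → Bool) → ℕ → Bool, TTs S' ∧ (∀ l, ∃ l', ∀ X, S' l' X = S l X) ∧
      ∀ X Y : ℕ → Bool, PRed X Y → ∃ l', S' l' Y = X := by
  obtain ⟨δ, u, hδ, hu, hSe⟩ := hS
  obtain ⟨U, hU, hUf⟩ := exists_univ_nat
  let δ3 : (ℕ × ℕ) × List Bool → Bool := fun x =>
    cond (decide (x.1.1 % 2 = 0)) (δ ((x.1.1 / 2, x.1.2), x.2))
      (decide (U (x.1.1 / 2).unpair.1 (encode ((x.1.2, x.2) : ℕ × List Bool)) = 1))
  let u3 : ℕ × ℕ → ℕ := fun x =>
    cond (decide (x.1 % 2 = 0)) (u (x.1 / 2, x.2)) (U (x.1 / 2).unpair.2 x.2)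
  have hδ3 : Computable δ3 := by
    have h1 : Computable fun x : (ℕ × ℕ) × List Bool => decide (x.1.1 % 2 = 0) :=
      (PrimrecPred.decide (Primrec.eq.comp
        (Primrec.nat_mod.comp (Primrec.fst.comp Primrec.fst) (Primrec.const 2))
        (Primrec.const 0))).to_comp
    have hd : Primrec fun x : (ℕ × ℕ) × List Bool => x.1.1 / 2 :=
      Primrec.nat_div.comp (Primrec.fst.comp Primrec.fst) (Primrec.const 2)
    have h2 : Computable fun x : (ℕ × ℕ) × List Bool =>
        (((x.1.1 / 2, x.1.2), x.2) : (ℕ × ℕ) × List Bool) :=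
      ((hd.pair (Primrec.snd.comp Primrec.fst)).pair Primrec.snd).to_comp
    have h3 : Computable fun x : (ℕ × ℕ) × List Bool => δ ((x.1.1 / 2, x.1.2), x.2) :=
      Computable.comp (f := δ)
        (g := fun x : (ℕ × ℕ) × List Bool => (((x.1.1 / 2, x.1.2), x.2) : (ℕ × ℕ) × List Bool))
        hδ h2
    have h4 : Computable fun x : (ℕ × ℕ) × List Bool => (x.1.1 / 2).unpair.1 :=
      (Primrec.fst.comp (Primrec.unpair.comp hd)).to_comp
    have h5 : Computable fun x : (ℕ × ℕ) × List Bool => encode ((x.1.2, x.2) : ℕ × List Bool) :=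
      (Primrec.encode.comp ((Primrec.snd.comp Primrec.fst).pair Primrec.snd)).to_comp
    have h6 : Computable fun x : (ℕ × ℕ) × List Bool =>
        U (x.1.1 / 2).unpair.1 (encode ((x.1.2, x.2) : ℕ × List Bool)) :=
      Computable₂.comp (f := U) (g := fun x : (ℕ × ℕ) × List Bool => (x.1.1 / 2).unpair.1)
        (h := fun x : (ℕ × ℕ) × List Bool => encode ((x.1.2, x.2) : ℕ × List Bool)) hU h4 h5
    have h7 : Computable fun n : ℕ => decide (n = 1) :=
      (PrimrecPred.decide (Primrec.eq.comp Primrec.id (Primrec.const 1))).to_comp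
    have h8 : Computable fun x : (ℕ × ℕ) × List Bool =>
        decide (U (x.1.1 / 2).unpair.1 (encode ((x.1.2, x.2) : ℕ × List Bool)) = 1) :=
      Computable.comp (f := fun n : ℕ => decide (n = 1)) (g := fun x : (ℕ × ℕ) × List Bool =>
        U (x.1.1 / 2).unpair.1 (encode ((x.1.2, x.2) : ℕ × List Bool))) h7 h6
    exact Computable.cond h1 h3 h8
  have hu3 : Computable u3 := by
    have h1 : Computable fun x : ℕ × ℕ => decide (x.1 % 2 = 0) :=
      (PrimrecPred.decide (Primrec.eq.comp
        (Primrec.nat_mod.comp Primrec.fst (Primrec.const 2)) (Primrec.const 0))).to_comp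
    have hd : Primrec fun x : ℕ × ℕ => x.1 / 2 := Primrec.nat_div.comp Primrec.fst (Primrec.const 2)
    have h3 : Computable fun x : ℕ × ℕ => u (x.1 / 2, x.2) :=
      Computable.comp (f := u) (g := fun x : ℕ × ℕ => (x.1 / 2, x.2)) hu
        ((hd.pair Primrec.snd).to_comp)
    have h4 : Computable fun x : ℕ × ℕ => (x.1 / 2).unpair.2 :=
      (Primrec.snd.comp (Primrec.unpair.comp hd)).to_comp
    have h5 : Computable fun x : ℕ × ℕ => U (x.1 / 2).unpair.2 x.2 := hU.comp h4 Computable.snd
    exact Computable.cond h1 h3 h5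
  refine ⟨fun l X n => δ3 ((l, n), (List.range (u3 (l, n))).map X), ⟨δ3, u3, hδ3, hu3,
    fun _ _ _ => rfl⟩, ?_, ?_⟩
  · intro l
    refine ⟨2 * l, fun X => ?_⟩
    funext n
    have e1 : 2 * l % 2 = 0 := by omega
    have e2 : 2 * l / 2 = l := by omega
    rw [hSe]
    simp only [δ3, u3, e1, e2, decide_true, cond_true]
  · rintro X Y ⟨f, v, hf, hv, hfv⟩
    have hg : Primrec fun m : ℕ => encode (f ((decode (α := ℕ × List Bool) m).getD (0, []))) :=
      Primrec.encode.comp (hf.comp (Primrec.option_getD.comp Primrec.decode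
        (Primrec.const ((0, []) : ℕ × List Bool))))
    obtain ⟨i, hi⟩ := hUf _ hg
    obtain ⟨j, hj⟩ := hUf _ hv
    refine ⟨2 * Nat.pair i j + 1, ?_⟩
    funext n
    have e1 : ¬ (2 * Nat.pair i j + 1) % 2 = 0 := by omega
    have e2 : (2 * Nat.pair i j + 1) / 2 = Nat.pair i j := by omega
    rw [hfv]
    simp only [δ3, u3, e1, e2, decide_false, cond_false, Nat.unpair_pair, hi, hj, encodek,
      Option.getD_some]
    cases f (n, (List.range (v n)).map Y) <;> simp

/-- one solution for a truth-table functional and all its inverse branches in a uniformly computable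
sequence, and all its primitive recursive inverse branches -/
theorem main_tt {T : (ℕ → Bool) → ℕ → Bool} (hT : TT T) {S : ℕ → (ℕ → Bool) → ℕ → Bool}
    (hS : TTs S) : ∃ e : ℕ, PostIndex e ∧ ∀ X : ℕ → Bool,
      ((∃ l, S l (T X) = X) ∨ PRed X (T X)) →
      TLe (chr (WE X e)) (chr (WE (T X) e)) ∧ TLe (chr (WE (T X) e)) (chr (WE X e)) := by
  obtain ⟨S', hS', h1, h2⟩ := exists_all hS
  obtain ⟨e, he, h3⟩ := main hT.ud hS'.ud
  refine ⟨e, he, fun X hX => ?_⟩
  rcases hX with ⟨l, hl⟩ | hX
  · obtain ⟨l', hl'⟩ := h1 l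
    exact h3 X l' (by rw [hl', hl])
  · obtain ⟨l', hl'⟩ := h2 _ _ hX
    exact h3 X l' hl'

/-- the even part -/
def evp (X : ℕ → Bool) : ℕ → Bool := fun n => X (2 * n)

theorem evp_join (X Y : ℕ → Bool) : evp (join X Y) = X := by
  funext n
  unfold evp join
  rw [if_pos (by omega), show 2 * n / 2 = n by omega]

theorem evp_TT : TT evp := by
  refine ⟨fun x => x.2.getD (2 * x.1) false, fun n => 2 * n + 1, ?_, ?_, ?_⟩
  · exact ((Primrec.list_getD false).comp Primrec.snd
      (Primrec.nat_mul.comp (Primrec.const 2) Primrec.fst)).to_comp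
  · exact (Primrec.succ.comp (Primrec.nat_mul.comp (Primrec.const 2) Primrec.id)).to_comp
  · intro X n
    exact (pre_getD X (2 * n + 1) (2 * n) false (by omega)).symm

theorem pre_take (X : ℕ → Bool) {k n : ℕ} (h : k ≤ n) :
    ((List.range n).map X).take k = (List.range k).map X := by
  rw [← List.map_take, List.take_range, Nat.min_eq_left h]

theorem TTs.join {F : ℕ → (ℕ → Bool) → ℕ → Bool} (hF : TTs F) :
    TTs fun l X => join X (F l X) := by
  obtain ⟨δ, u, hδ, hu, h⟩ := hF
  refine ⟨fun x => cond (decide (x.1.2 % 2 = 0)) (x.2.getD (x.1.2 / 2) false)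
    (δ ((x.1.1, x.1.2 / 2), x.2.take (u (x.1.1, x.1.2 / 2)))),
    fun x => u (x.1, x.2 / 2) + x.2 + 1, ?_, ?_, ?_⟩
  · have h1 : Computable fun x : (ℕ × ℕ) × List Bool => decide (x.1.2 % 2 = 0) :=
      (PrimrecPred.decide (Primrec.eq.comp
        (Primrec.nat_mod.comp (Primrec.snd.comp Primrec.fst) (Primrec.const 2))
        (Primrec.const 0))).to_comp
    have hd : Primrec fun x : (ℕ × ℕ) × List Bool => x.1.2 / 2 :=
      Primrec.nat_div.comp (Primrec.snd.comp Primrec.fst) (Primrec.const 2)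
    have h2 : Computable fun x : (ℕ × ℕ) × List Bool => x.2.getD (x.1.2 / 2) false :=
      ((Primrec.list_getD false).comp Primrec.snd hd).to_comp
    have h3 : Computable fun x : (ℕ × ℕ) × List Bool => ((x.1.1, x.1.2 / 2) : ℕ × ℕ) :=
      ((Primrec.fst.comp Primrec.fst).pair hd).to_comp
    have h4 : Computable fun x : (ℕ × ℕ) × List Bool => u (x.1.1, x.1.2 / 2) := hu.comp h3
    have h5 : Computable fun x : (ℕ × ℕ) × List Bool => x.2.take (u (x.1.1, x.1.2 / 2)) :=
      Computable₂.comp (f := (List.take : ℕ → List Bool → List Bool))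
        Primrec.list_take.to_comp h4 Computable.snd
    have h6 : Computable fun x : (ℕ × ℕ) × List Bool =>
        δ ((x.1.1, x.1.2 / 2), x.2.take (u (x.1.1, x.1.2 / 2))) :=
      hδ.comp (h3.pair h5)
    exact Computable.cond h1 h2 h6
  · have h3 : Computable fun x : ℕ × ℕ => ((x.1, x.2 / 2) : ℕ × ℕ) :=
      (Primrec.fst.pair (Primrec.nat_div.comp Primrec.snd (Primrec.const 2))).to_comp
    have h4 : Computable fun x : ℕ × ℕ => u (x.1, x.2 / 2) := hu.comp h3
    exact Computable₂.comp (f := fun a b : ℕ => a + b + 1)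
      (Primrec.succ.comp Primrec.nat_add).to_comp h4 Computable.snd
  · intro l X n
    show Helper227.join X (F l X) n = _
    unfold Helper227.join
    by_cases hn : n % 2 = 0
    · rw [if_pos hn]
      simp only [hn, decide_true, cond_true]
      exact (pre_getD X _ (n / 2) false (by omega)).symm
    · rw [if_neg hn]
      simp only [hn, decide_false, cond_false]
      rw [pre_take X (by omega), h]

theorem PRed.join {X Y : ℕ → Bool} (h : PRed Y X) : PRed (join X Y) X := by
  obtain ⟨f, v, hf, hv, h⟩ := h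
  refine ⟨fun x => cond (decide (x.1 % 2 = 0)) (x.2.getD (x.1 / 2) false)
    (f (x.1 / 2, x.2.take (v (x.1 / 2)))), fun n => v (n / 2) + n + 1, ?_, ?_, ?_⟩
  · have h1 : Primrec fun x : ℕ × List Bool => decide (x.1 % 2 = 0) :=
      PrimrecPred.decide (Primrec.eq.comp
        (Primrec.nat_mod.comp Primrec.fst (Primrec.const 2)) (Primrec.const 0))
    have hd : Primrec fun x : ℕ × List Bool => x.1 / 2 :=
      Primrec.nat_div.comp Primrec.fst (Primrec.const 2)
    exact Primrec.cond h1 ((Primrec.list_getD false).comp Primrec.snd hd)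
      (hf.comp (hd.pair (Primrec.list_take.comp (hv.comp hd) Primrec.snd)))
  · exact Primrec.succ.comp (Primrec.nat_add.comp
      (hv.comp (Primrec.nat_div.comp Primrec.id (Primrec.const 2))) Primrec.id)
  · intro n
    unfold Helper227.join
    by_cases hn : n % 2 = 0
    · rw [if_pos hn]
      simp only [hn, decide_true, cond_true]
      exact (pre_getD X _ (n / 2) false (by omega)).symm
    · rw [if_neg hn]
      simp only [hn, decide_false, cond_false]
      rw [pre_take X (by omega), h]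

/-- one solution for adding sets which are primitive recursive in the oracle, or given by a
uniformly computable sequence of truth-table functionals -/
theorem main_add {F : ℕ → (ℕ → Bool) → ℕ → Bool} (hF : TTs F) :
    ∃ e : ℕ, PostIndex e ∧ ∀ X Y : ℕ → Bool, ((∃ l, F l X = Y) ∨ PRed Y X) →
      TLe (chr (WE (join X Y) e)) (chr (WE X e)) ∧
        TLe (chr (WE X e)) (chr (WE (join X Y) e)) := by
  obtain ⟨e, he, h⟩ := main_tt evp_TT hF.join
  refine ⟨e, he, fun X Y hXY => ?_⟩
  have h1 := h (join X Y)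
  rw [evp_join] at h1
  refine h1 ?_
  rcases hXY with ⟨l, hl⟩ | hXY
  · exact Or.inl ⟨l, by rw [hl]⟩
  · exact Or.inr hXY.join

end Pool.Agent.V7H67.IB
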